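import Pool.Agent.Work.MP_85af13_lc.Reduce

set_option autoImplicit false

open Pool.Agent.Work.MP_85af13_lc Pool.Agent.Work.PolyTime

namespace Pool.Agent.Results.MP_85af13_lc.BipartiteReduction

/-- The chip-firing halting problem on Eulerian multidigraphs is reducible, by a polynomial-time
many-one reduction, to its special case of connected bipartite undirected multigraphs. -/
theorem result : PolyReducible haltingEulerian haltingBipartite :=
  reducible_bipartite

end Pool.Agent.Results.MP_85af13_lc.BipartiteReduction
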