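import Pool.Agent.Work.MP_85af13_lc.Rank.Final

set_option autoImplicit false

open Pool.Agent.Work.MP_85af13_lc
open Pool.Agent.Work.PolyTime

namespace Pool.Agent.Results.MP_85af13_lc.CycleRank

/-- For every `r` and every polynomial `p` one polynomial-time algorithm, which never accepts
wrongly, decides the chip-firing halting problem on all Eulerian multidigraphs (multiplicities and
chip numbers in binary) of directed cycle rank at most `r` modulo parts which the backward random
walk leaves in expected time at most `p` of the length of the input. -/
theorem result (r : ℕ) (p : Polynomial ℕ) : ∃ f : List Bool → List Bool,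
    PolyTimeComputable f ∧ (∀ w, f w = [true] → w ∈ haltingEulerian) ∧
      ∀ I : Inst, (graphOf I).Eulerian →
        (graphOf I).Rank (p.eval (code I).ser.length) r Set.univ →
        (f (code I).ser = [true] ↔ (graphOf I).Terminates (chipsOf I)) :=
  rank_main r p

end Pool.Agent.Results.MP_85af13_lc.CycleRank
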