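import Pool.Agent.Work.MP_85af13_lc.G.Final

set_option autoImplicit false

open Pool.Agent.Work.PolyTime Pool.Agent.Work.MP_85af13_lc

namespace Pool.Agent.Results.MP_85af13_lc.GameEquivalence

/-- The chip-firing halting problem on Eulerian multidigraphs, mean payoff games with binary
weights and simple stochastic games are equivalent under polynomial-time many-one reductions. -/
theorem result :
    (PolyReducible haltingEulerian G.meanPayoff ∧ PolyReducible G.meanPayoff haltingEulerian) ∧
    (PolyReducible haltingEulerian G.stochastic ∧ PolyReducible G.stochastic haltingEulerian) :=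
  ⟨⟨G.halting_le_meanPayoff, G.meanPayoff_le_halting⟩,
    ⟨G.halting_le_stochastic, G.stochastic_le_halting⟩⟩

end Pool.Agent.Results.MP_85af13_lc.GameEquivalence
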