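import Pool.Agent.Work.MP_85af13_lc.UP

set_option autoImplicit false

open Pool.Agent.Work.MP_85af13_lc

namespace Pool.Agent.Results.MP_85af13_lc.UniqueCertificates

/-- The chip-firing halting problem on Eulerian multidigraphs (multiplicities and chip numbers in
binary) lies in the intersection of UP and coUP. -/
theorem result : InUP haltingEulerian ∧ InUP haltingEulerianᶜ :=
  ⟨halting_inUP, halting_inCoUP⟩

end Pool.Agent.Results.MP_85af13_lc.UniqueCertificates
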